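import Pool.Agent.Helper99.EY.TrH

/-!
# EY, block T: the truncated formula, hybrid form

`trunc_h`: the blocks `n ≤ T p` come from the sums of the approximation `G p` (`SBl`), the blocks `n > T p` from the Fourier coefficients of `H` itself (`SBh`).
-/

open MeasureTheory Real Set Filter Topology

set_option autoImplicit false

namespace Pool.Agent.Helper99.EY

open Pool.Agent.Helper22.AE (ee rho nk tk box cz IsSupp IsBump ft area)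
open Pool.Agent.Helper22.AC (cntc ga)
open Pool.Agent.Helper22.LP (Fr fk fdet nr tr hom wr nr_cos nr_sin)
open Pool.Agent.Helper92.GC (dt sqa)
open Pool.Agent.Helper92.LA (Fb lcnt)
open Pool.Agent.Helper93.AO (gl SS Tm wi Er lcnt_shf)
open Pool.Agent.Helper22.OV (shf shf_smooth shf_rho exists_shift area_shf)
open Pool.Agent.Helper93.EX
open Pool.Agent.Helper99.EX

/-- the bounds of the low blocks, for the sequence of support functions `G` -/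
def SBl (T : ℕ → ℕ) (G : ℕ → ℝ → ℝ) : Prop :=
  ∀ M : ℝ, 1 ≤ M → ∃ (C : ℝ) (p₀ : ℕ), 1 ≤ C ∧ ∀ p : ℕ, p₀ ≤ p → ∀ n : ℕ, n ≤ T p → ∀ f : Fr, Fb M f →
    ∀ (α r : ℝ) (c : ℝ × ℝ) (i : ℕ), |α| ≤ 1 → 2 ^ p / 4 ≤ r → r ≤ 16 * 2 ^ p → i = 1 ∨ i = 2 → ‖SS (G p) f α r c i (2 ^ n)‖ ≤ C * gl n p

/-- the bounds of the high blocks, for the support function `H` itself -/
def SBh (T : ℕ → ℕ) (e : ℝ) (H : ℝ → ℝ) : Prop :=
  ∀ v : ℝ × ℝ, IsSupp (shf H v) → ∃ (C : ℝ) (p₀ : ℕ), ∀ p : ℕ, p₀ ≤ p → ∀ n : ℕ, T p < n → (n : ℝ) ≤ (1 / 2 + e) * p →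
    ∀ R ∈ Icc ((2 : ℝ) ^ p / 2) (4 * 2 ^ p), ∀ c : ℝ × ℝ,
      ‖∑ k ∈ sqa (2 ^ n), ft (fun θ => R * shf H v θ) k * ee (dt k c)‖ ≤ C * (sqrt (2 ^ p) / ((n : ℝ) + 1) ^ 2 + 1)

/-- the phase function of the shifted support function -/
private theorem ga_shf_h99 {H : ℝ → ℝ} (h2 : ContDiff ℝ 2 H) (v : ℝ × ℝ) (α t : ℝ) :
    ga (shf H v) α t = ga H α t + (v.1 * cos t + v.2 * sin t) := by
  have hd1 : ∀ s, HasDerivAt H (deriv H s) s := fun s => (h2.differentiable (by norm_num)).differentiableAt.hasDerivAt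
  have e1 : deriv (shf H v) (t + α) = deriv H (t + α) + (v.1 * (-sin (t + α)) + v.2 * cos (t + α)) := by
    apply HasDerivAt.deriv
    unfold shf
    exact (hd1 (t + α)).add (((hasDerivAt_cos (t + α)).const_mul v.1).add ((hasDerivAt_sin (t + α)).const_mul v.2))
  have ec : cos t = cos (t + α) * cos α + sin (t + α) * sin α := by
    rw [← cos_sub]
    congr 1
    ring
  have es : sin t = sin (t + α) * cos α - cos (t + α) * sin α := by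
    rw [← sin_sub]
    congr 1
    ring
  unfold ga
  rw [e1, ec, es]
  unfold shf
  ring

private theorem hom_shf_h99 {H : ℝ → ℝ} (h2 : ContDiff ℝ 2 H) (v : ℝ × ℝ) (α : ℝ) (w : ℝ × ℝ) :
    hom (ga (shf H v) α) w = hom (ga H α) w + (v.1 * w.1 + v.2 * w.2) := by
  have e1 := nr_cos w
  have e2 := nr_sin w
  unfold hom
  rw [ga_shf_h99 h2]
  linear_combination (-v.1) * e1 + (-v.2) * e2

private theorem wi_shf_h99 {H : ℝ → ℝ} (h2 : ContDiff ℝ 2 H) (v : ℝ × ℝ) (i : ℕ) (α : ℝ) (w : ℝ × ℝ) :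
    wi i (shf H v) α w = wi i H α w := by
  unfold wi
  split_ifs
  · unfold wr rho
    rw [shf_rho v h2]
  · rfl

/-- the sums of the shifted support function are those of the function with another centre -/
private theorem ss_shf_h99 {H : ℝ → ℝ} (h2 : ContDiff ℝ 2 H) (v : ℝ × ℝ) (f : Fr) (α r : ℝ) (c : ℝ × ℝ) (i N : ℕ) :
    SS (shf H v) f α r c i N =
      SS H f α r (c.1 + r * (v.1 * f.1.1 + v.2 * f.1.2), c.2 + r * (v.1 * f.2.1 + v.2 * f.2.2)) i N := by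
  unfold SS
  refine Finset.sum_congr rfl fun k _ => ?_
  unfold Tm
  rw [wi_shf_h99 h2, hom_shf_h99 h2]
  congr 2
  unfold dt
  have e1 : (fk f k).1 = (k.1 : ℝ) * f.1.1 + (k.2 : ℝ) * f.2.1 := rfl
  have e2 : (fk f k).2 = (k.1 : ℝ) * f.1.2 + (k.2 : ℝ) * f.2.2 := rfl
  rw [e1, e2]
  ring

/-- positive, periodic and continuous functions are bounded from below and above -/
private theorem bd_h99 {F : ℝ → ℝ} (hc : Continuous F) (hp : Function.Periodic F (2 * π)) (h0 : ∀ t, 0 < F t) :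
    ∃ m B : ℝ, 0 < m ∧ ∀ t, m ≤ F t ∧ F t ≤ B := by
  have hK : IsCompact (Icc (0 : ℝ) (2 * π)) := isCompact_Icc
  have hne : (Icc (0 : ℝ) (2 * π)).Nonempty := ⟨0, by constructor <;> positivity⟩
  obtain ⟨x, _, hx⟩ := hK.exists_isMinOn hne hc.continuousOn
  obtain ⟨y, _, hy⟩ := hK.exists_isMaxOn hne hc.continuousOn
  refine ⟨F x, F y, h0 x, fun t => ?_⟩
  obtain ⟨s, hs, he⟩ := hp.exists_mem_Ico₀ (by positivity) t
  have hs' : s ∈ Icc (0 : ℝ) (2 * π) := ⟨hs.1, hs.2.le⟩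
  rw [he]
  exact ⟨hx hs', hy hs'⟩

/-- quotients by `4^p` are small -/
private theorem small_h99 (K : ℝ) {e : ℝ} (he : 0 < e) : ∃ p₀ : ℕ, ∀ p : ℕ, p₀ ≤ p → K / 4 ^ p ≤ e := by
  obtain ⟨n, hn⟩ := pow_unbounded_of_one_lt (K / e) (show (1 : ℝ) < 4 by norm_num)
  refine ⟨n, fun p hp => ?_⟩
  have h1 : (4 : ℝ) ^ n ≤ 4 ^ p := pow_le_pow_right₀ (by norm_num) hp
  have h2 : K / e < 4 ^ p := lt_of_lt_of_le hn h1
  rw [div_lt_iff₀ he] at h2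
  rw [div_le_iff₀ (by positivity)]
  linarith

private theorem le_of_sq_le_sq_h99 {x y : ℝ} (hy : 0 ≤ y) (h : x ^ 2 ≤ y ^ 2) : x ≤ y := (abs_le_of_sq_le_sq' h hy).2

/-- the cut is small -/
private theorem cut_h99 (a : ℕ) : ∃ p₀ : ℕ, ∀ p : ℕ, p₀ ≤ p → 2 * ((NN a p : ℕ) : ℝ) ≤ ((2 : ℝ) ^ p) ^ (1 / 4 : ℝ) := by
  have h := tendsto_pow_const_div_const_pow_of_one_lt 2 (show (1 : ℝ) < 2 by norm_num)
  have he : (0 : ℝ) < 1 / (16 * 16 ^ a) := by positivity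
  obtain ⟨p₀, hp₀⟩ := (h.eventually (Iio_mem_nhds he)).exists_forall_of_atTop
  refine ⟨p₀ + 1, fun p hp => ?_⟩
  have h3 : (p : ℝ) ^ 2 / 2 ^ p < 1 / (16 * 16 ^ a) := hp₀ p (by omega)
  have hX : (0 : ℝ) < 2 ^ p := by positivity
  rw [div_lt_div_iff₀ hX (by positivity), one_mul] at h3
  have h4 := NN_sq99 (show 1 ≤ p by omega) a
  have h5 : (2 * ((NN a p : ℕ) : ℝ)) ^ 4 ≤ 2 ^ p := by
    have e1 : (2 * ((NN a p : ℕ) : ℝ)) ^ 4 = 16 * (((NN a p : ℕ) : ℝ) ^ 2) ^ 2 := by ring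
    rw [e1]
    have h6 : (((NN a p : ℕ) : ℝ) ^ 2) ^ 2 ≤ (4 ^ a * (p : ℝ)) ^ 2 := pow_le_pow_left₀ (by positivity) h4 2
    have e2 : (4 ^ a * (p : ℝ)) ^ 2 = 16 ^ a * (p : ℝ) ^ 2 := by
      rw [mul_pow, ← pow_mul, mul_comm a 2, pow_mul]
      norm_num
    rw [e2] at h6
    linarith
  calc 2 * ((NN a p : ℕ) : ℝ) = ((2 * ((NN a p : ℕ) : ℝ)) ^ 4) ^ (1 / 4 : ℝ) := by
        rw [← Real.rpow_natCast, ← Real.rpow_mul (by positivity)]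
        norm_num
    _ ≤ ((2 : ℝ) ^ p) ^ (1 / 4 : ℝ) := Real.rpow_le_rpow (by positivity) h5 (by norm_num)

/-- `p w^p → 0` -/
private theorem om_h99 {d e : ℝ} (hd : 0 < d) (he : 0 < e) : ∃ p₀ : ℕ, ∀ p : ℕ, p₀ ≤ p → (p : ℝ) * (2 : ℝ) ^ (-(d * p)) ≤ e := by
  have hr : (1 : ℝ) < (2 : ℝ) ^ d := Real.one_lt_rpow (by norm_num) hd
  have h := tendsto_pow_const_div_const_pow_of_one_lt 1 hr
  have h2 := (h.eventually (Iio_mem_nhds he)).exists_forall_of_atTop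
  obtain ⟨p₀, hp₀⟩ := h2
  refine ⟨p₀, fun p hp => ?_⟩
  have h3 := hp₀ p hp
  have e1 : (p : ℝ) * (2 : ℝ) ^ (-(d * p)) = (p : ℝ) ^ 1 / ((2 : ℝ) ^ d) ^ p := by
    rw [pow_one, ← Real.rpow_natCast, ← Real.rpow_mul (by norm_num), Real.rpow_neg (by norm_num), div_eq_mul_inv (p : ℝ) ((2 : ℝ) ^ _)]
  rw [e1]
  exact h3.le

/-- `2^(p/4)` is small compared with `2^(p/2)` -/
private theorem fo_h99 (C : ℝ) (hC : 0 ≤ C) {e : ℝ} (he : 0 < e) : ∃ p₀ : ℕ, ∀ p : ℕ, p₀ ≤ p → ∀ m : ℕ, (m : ℝ) ≤ 1 / 8 * p → C * 4 ^ m ≤ e * sqrt (2 ^ p) := by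
  obtain ⟨n, hn⟩ := pow_unbounded_of_one_lt (C / e) (show (1 : ℝ) < 2 by norm_num)
  refine ⟨4 * n, fun p hp m hm => ?_⟩
  have h1 : (4 : ℝ) ^ m ≤ (2 : ℝ) ^ ((p : ℝ) / 4) := by
    have e1 : (4 : ℝ) ^ m = (2 : ℝ) ^ (2 * (m : ℝ)) := by
      rw [Real.rpow_mul (by norm_num), Real.rpow_natCast]
      norm_num
    rw [e1]
    refine Real.rpow_le_rpow_of_exponent_le (by norm_num) ?_
    linarith
  have h2 : sqrt ((2 : ℝ) ^ p) = (2 : ℝ) ^ ((p : ℝ) / 4) * (2 : ℝ) ^ ((p : ℝ) / 4) := by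
    rw [Real.sqrt_eq_rpow, ← Real.rpow_natCast, ← Real.rpow_mul (by norm_num), ← Real.rpow_add (by norm_num)]
    congr 1
    ring
  have h3 : C ≤ e * (2 : ℝ) ^ ((p : ℝ) / 4) := by
    have h4 : (2 : ℝ) ^ n ≤ (2 : ℝ) ^ ((p : ℝ) / 4) := by
      rw [← Real.rpow_natCast]
      refine Real.rpow_le_rpow_of_exponent_le (by norm_num) ?_
      have : (4 : ℝ) * n ≤ p := by exact_mod_cast hp
      linarith
    have h5 : C / e < (2 : ℝ) ^ ((p : ℝ) / 4) := lt_of_lt_of_le hn h4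
    rw [div_lt_iff₀ he] at h5
    linarith
  have hP : (0 : ℝ) ≤ (2 : ℝ) ^ ((p : ℝ) / 4) := by positivity
  calc C * 4 ^ m ≤ C * (2 : ℝ) ^ ((p : ℝ) / 4) := mul_le_mul_of_nonneg_left h1 hC
    _ ≤ e * (2 : ℝ) ^ ((p : ℝ) / 4) * (2 : ℝ) ^ ((p : ℝ) / 4) := mul_le_mul_of_nonneg_right h3 hP
    _ = e * sqrt (2 ^ p) := by
      rw [h2]
      ring

/-- the truncated formula for an oval which contains the origin -/
theorem pos_h99 {H : ℝ → ℝ} (h2 : ContDiff ℝ 2 H) {v : ℝ × ℝ} (hv : IsSupp (shf H v)) {G : ℕ → ℝ → ℝ} {K : ℝ}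
    (hG : ∀ p, ContDiff ℝ 2 (G p)) (hGp : ∀ p, Function.Periodic (G p) (2 * π)) (hc : ∀ p t, |G p t - H t| ≤ K / 4 ^ p)
    (hd : ∀ ε : ℝ, 0 < ε → ∃ p₀ : ℕ, ∀ p : ℕ, p₀ ≤ p → ∀ t, |rho (G p) t - rho H t| ≤ ε)
    {T : ℕ → ℕ} (hT1 : ∀ m : ℕ, ∃ p₀ : ℕ, ∀ p : ℕ, p₀ ≤ p → m ≤ T p) (hT2 : ∀ ε : ℝ, 0 < ε → ∃ p₀ : ℕ, ∀ p : ℕ, p₀ ≤ p → (T p : ℝ) ≤ ε * p)
    {e : ℝ} (he : 0 < e) (he1 : e ≤ 1 / 1000) (hS : SBl T G) (hH : SBh T e H) {ε : ℝ} (hε : 0 < ε) :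
    ∃ a₀ : ℕ, ∀ a : ℕ, a₀ ≤ a → ∃ p₀ : ℕ, ∀ p : ℕ, p₀ ≤ p → ∀ R ∈ Icc ((2 : ℝ) ^ p) (2 ^ (p + 1)), ∀ c : ℝ × ℝ,
      |cntc (shf H v) c R - area (shf H v) * R ^ 2 - sqrt R * Mx (shf H v) (NN a p) R c| ≤ ε * (sqrt R * Lx p ^ (1 / 4 : ℝ)) := by
  obtain ⟨m, B, hm, hmB⟩ := bd_h99 hv.smooth.continuous hv.per hv.pos
  -- the radius of curvature
  have hrc : Continuous (rho (shf H v)) := by
    have h1 : Continuous (deriv (deriv (shf H v))) := Pool.Agent.Helper22.OV.cd_two hv.smooth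
    exact hv.smooth.continuous.add h1
  have hrp : Function.Periodic (rho (shf H v)) (2 * π) := by
    intro t
    unfold rho
    have e1 : Function.Periodic (deriv (shf H v)) (2 * π) := by
      intro s
      have h3 : (fun x => shf H v (x + 2 * π)) = shf H v := funext hv.per
      calc deriv (shf H v) (s + 2 * π) = deriv (fun x => shf H v (x + 2 * π)) s := (deriv_comp_add_const _ _ _).symm
        _ = _ := by rw [h3]
    have e2 : deriv (deriv (shf H v)) (t + 2 * π) = deriv (deriv (shf H v)) t := by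
      have h3 : (fun x => deriv (shf H v) (x + 2 * π)) = deriv (shf H v) := funext e1
      calc deriv (deriv (shf H v)) (t + 2 * π) = deriv (fun x => deriv (shf H v) (x + 2 * π)) t := (deriv_comp_add_const _ _ _).symm
        _ = _ := by rw [h3]
    rw [hv.per t, e2]
  obtain ⟨m₂, B₂, hm₂, hmB₂⟩ := bd_h99 hrc hrp hv.rho_pos
  have hK : 0 ≤ K := by
    have h1 := hc 0 0
    have h3 := abs_nonneg (G 0 0 - H 0)
    simp only [pow_zero, div_one] at h1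
    linarith
  have hB : 0 < B := lt_of_lt_of_le hm ((hmB 0).1.trans (hmB 0).2)
  have hB₂ : 0 < B₂ := lt_of_lt_of_le hm₂ ((hmB₂ 0).1.trans (hmB₂ 0).2)
  obtain ⟨M, hMd⟩ : ∃ M : ℝ, M = (2 / m) + (B + 1) + (B₂ + 1) := ⟨_, rfl⟩
  have hm2 : 0 < 2 / m := by positivity
  have hM2 : 2 ≤ M := by linarith
  have hM0 : 0 < M := by linarith
  have hMm : 1 / M ≤ m / 2 := by
    have h1 : 2 / m ≤ M := by linarith
    rw [div_le_iff₀ hm] at h1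
    rw [div_le_iff₀ hM0]
    linarith
  obtain ⟨C₁, p₀, hC₁, hSB⟩ := hS 1 le_rfl
  obtain ⟨C₂, p₇, hSH⟩ := hH v hv
  obtain ⟨C, hCd⟩ : ∃ C : ℝ, C = max C₁ C₂ := ⟨_, rfl⟩
  have hC : 1 ≤ C := by
    rw [hCd]
    exact hC₁.trans (le_max_left _ _)
  obtain ⟨C1, C2, P, hC1, hC2, hP1, hest⟩ := est_h99 hM2 hC hK he he1
  obtain ⟨p₂, hp₂⟩ := small_h99 K (e := min (m / 4) 1) (lt_min (by positivity) one_pos)
  obtain ⟨p₃, hp₃⟩ := hd (min (m₂ / 2) 1) (lt_min (by positivity) one_pos)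
  -- the number a
  obtain ⟨a₀, ha₀⟩ : ∃ a₀ : ℕ, ∀ a : ℕ, a₀ ≤ a → C1 * s99 a ≤ ε / 8 := by
    have h1 := s_lim99.const_mul C1
    rw [mul_zero] at h1
    obtain ⟨a₀, h⟩ := (h1.eventually (Iio_mem_nhds (show (0 : ℝ) < ε / 8 by positivity))).exists_forall_of_atTop
    exact ⟨a₀, fun a ha => (h a ha).le⟩
  refine ⟨a₀, fun a ha => ?_⟩
  obtain ⟨R₁, hR₁1, hlow⟩ := low_main99 hv (η := ε / (8 * 2 ^ a)) (by positivity)
  obtain ⟨p₄, hp₄⟩ := om_h99 (d := e / 4) (e := ε / (8 * (C2 * 4 ^ a + 1))) (by positivity) (by positivity)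
  obtain ⟨m₉, hm₉⟩ : ∃ m₉ : ℕ, 16 * C2 / ε ≤ m₉ := exists_nat_ge _
  obtain ⟨p₈, hp₈⟩ := hT1 m₉
  obtain ⟨p₉, hp₉⟩ := hT2 (1 / 8) (by norm_num)
  obtain ⟨q₁, hq₁⟩ := fo_h99 C2 hC2 (e := ε / 16) (by positivity)
  obtain ⟨p₅, hp₅⟩ := cut_h99 a
  obtain ⟨p₆, hp₆⟩ : ∃ p₆ : ℕ, R₁ ≤ 2 ^ p₆ := by
    obtain ⟨n, hn⟩ := pow_unbounded_of_one_lt R₁ (show (1 : ℝ) < 2 by norm_num)
    exact ⟨n, hn.le⟩
  refine ⟨p₀ + P + p₂ + p₃ + p₄ + p₅ + p₆ + 4 * a + p₇ + p₈ + p₉ + q₁, fun p hp R hR c => ?_⟩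
  have hp1 : 1 ≤ p := by omega
  have hpr : (1 : ℝ) ≤ p := by exact_mod_cast hp1
  have hX0 : (0 : ℝ) < 2 ^ p := by positivity
  have hR0 : 0 < R := lt_of_lt_of_le hX0 hR.1
  -- the approximation
  have hK4 : K / 4 ^ p ≤ m / 4 ∧ K / 4 ^ p ≤ 1 := by
    have h1 := hp₂ p (by omega)
    exact ⟨h1.trans (min_le_left _ _), h1.trans (min_le_right _ _)⟩
  have hdif : ∀ t, |shf (G p) v t - shf H v t| ≤ K / 4 ^ p := by
    intro t
    have h1 := hc p t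
    have e : shf (G p) v t - shf H v t = G p t - H t := by
      unfold shf
      ring
    rwa [e]
  have hlo : ∀ t, m / 2 ≤ shf (G p) v t := by
    intro t
    have h1 := (abs_le.1 (hdif t)).1
    have h3 := (hmB t).1
    linarith [hK4.1]
  have hhi : ∀ t, shf (G p) v t ≤ M := by
    intro t
    have h1 := (abs_le.1 (hdif t)).2
    have h3 := (hmB t).2
    linarith [hK4.2]
  have hrho : ∀ t, rho (shf (G p) v) t = rho (G p) t := fun t => shf_rho v (hG p) t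
  have hrhoH : ∀ t, rho (shf H v) t = rho H t := fun t => shf_rho v h2 t
  have hrd : ∀ t, |rho (shf (G p) v) t - rho (shf H v) t| ≤ min (m₂ / 2) 1 := by
    intro t
    rw [hrho, hrhoH]
    exact hp₃ p (by omega) t
  have hrlo : ∀ t, 0 < rho (shf (G p) v) t := by
    intro t
    have h1 := (abs_le.1 (hrd t)).1
    have h3 := (hmB₂ t).1
    have h4 := min_le_left (m₂ / 2) 1
    linarith
  have hrhi : ∀ t, rho (shf (G p) v) t ≤ M := by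
    intro t
    have h1 := (abs_le.1 (hrd t)).2
    have h3 := (hmB₂ t).2
    have h4 := min_le_right (m₂ / 2) 1
    linarith
  have hsupp : IsSupp (shf (G p) v) := by
    refine ⟨shf_smooth v (hG p), ?_, fun t => lt_of_lt_of_le (by positivity) (hlo t), hrlo⟩
    intro t
    unfold shf
    rw [hGp p t, cos_add_two_pi, sin_add_two_pi]
  have hFb : Fb 1 idf99 := by
    unfold idf99
    refine ⟨by simp, by simp, by simp, by simp, ?_⟩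
    have := fdet_idf99
    unfold idf99 at this
    rw [this]
    simp
  have hlo2 : ∀ t, 1 / M ≤ shf H v t := fun t => (hMm.trans (by linarith)).trans (hmB t).1
  have hhi2 : ∀ t, shf H v t ≤ M := fun t => (hmB t).2.trans (by linarith)
  have hrhi2 : ∀ t, rho (shf H v) t ≤ M := fun t => (hmB₂ t).2.trans (by linarith)
  have hss : ∀ n : ℕ, n ≤ T p → ∀ (α r : ℝ) (c : ℝ × ℝ) (i : ℕ), |α| ≤ 1 → 2 ^ p / 4 ≤ r → r ≤ 16 * 2 ^ p → i = 1 ∨ i = 2 →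
      ‖SS (shf (G p) v) idf99 α r c i (2 ^ n)‖ ≤ C * gl n p := by
    intro n hn α r c i hα hr1 hr2 hi
    rw [ss_shf_h99 (hG p)]
    refine (hSB p (by omega) n hn idf99 hFb α r _ i hα hr1 hr2 hi).trans ?_
    refine mul_le_mul_of_nonneg_right ?_ (Finset.sum_nonneg fun _ _ => le_min (by positivity) (by positivity))
    rw [hCd]
    exact le_max_left _ _
  have hsh : ∀ n : ℕ, T p < n → (n : ℝ) ≤ (1 / 2 + e) * p → ∀ R ∈ Icc ((2 : ℝ) ^ p / 2) (4 * 2 ^ p), ∀ c : ℝ × ℝ,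
      ‖∑ k ∈ sqa (2 ^ n), ft (fun θ => R * shf H v θ) k * ee (dt k c)‖ ≤ C * (sqrt (2 ^ p) / ((n : ℝ) + 1) ^ 2 + 1) := by
    intro n hn1 hn2 r hr c
    refine (hSH p (by omega) n hn1 hn2 r hr c).trans ?_
    refine mul_le_mul_of_nonneg_right ?_ (by positivity)
    rw [hCd]
    exact le_max_right _ _
  have h1 := hest p (by omega) (shf (G p) v) (shf H v) hsupp hv (fun t => hMm.trans (hlo t)) hhi hrhi hlo2 hhi2 hrhi2 hdif (T p) hss hsh a (by omega) R hR c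
    (sqrt R * Mx (shf H v) (NN a p) R c)
  have hRR : R₁ ≤ R := (hp₆.trans (pow_le_pow_right₀ (by norm_num) (by omega))).trans hR.1
  have hN1 : 1 ≤ NN a p := Nat.one_le_two_pow
  have hcut : 2 * ((NN a p : ℕ) : ℝ) ≤ R ^ (1 / 4 : ℝ) :=
    (hp₅ p (by omega)).trans (Real.rpow_le_rpow hX0.le hR.1 (by norm_num))
  have h3 := hlow R hRR (NN a p) hN1 hcut c
  -- the numbers
  obtain ⟨Q, hQ⟩ : ∃ Q : ℝ, Q = (p : ℝ) ^ (1 / 4 : ℝ) := ⟨_, rfl⟩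
  have hQ1 : 1 ≤ Q := by
    rw [hQ]
    exact Real.one_le_rpow hpr (by norm_num)
  have hQ4 : Q ^ 4 = p := by
    rw [hQ, ← Real.rpow_natCast, ← Real.rpow_mul (by linarith)]
    norm_num
  have hsN : sqrt ((NN a p : ℕ) : ℝ) ≤ 2 ^ a * Q := by
    rw [Real.sqrt_le_left (by positivity)]
    have h4 := NN_sq99 hp1 a
    have h5 : (((NN a p : ℕ) : ℝ)) ^ 2 ≤ ((2 ^ a * Q) ^ 2) ^ 2 := by
      have e : ((2 ^ a * Q) ^ 2) ^ 2 = (4 ^ a) ^ 2 * Q ^ 4 := by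
        have e1 : (4 : ℝ) ^ a = (2 ^ a) ^ 2 := by
          rw [← pow_mul, mul_comm a 2, pow_mul]
          norm_num
        rw [e1]
        ring
      rw [e, hQ4]
      have h6 : (1 : ℝ) ≤ 4 ^ a := one_le_pow₀ (by norm_num)
      have h7 : (4 : ℝ) ^ a * p ≤ 4 ^ a * (4 ^ a * p) := by
        have h8 : (p : ℝ) ≤ 4 ^ a * p := le_mul_of_one_le_left (by linarith) h6
        exact mul_le_mul_of_nonneg_left h8 (by positivity)
      calc (((NN a p : ℕ) : ℝ)) ^ 2 ≤ 4 ^ a * p := h4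
        _ ≤ 4 ^ a * (4 ^ a * p) := h7
        _ = (4 ^ a) ^ 2 * p := by ring
    exact le_of_sq_le_sq_h99 (by positivity) h5
  have hsR : sqrt ((2 : ℝ) ^ p) ≤ sqrt R := Real.sqrt_le_sqrt hR.1
  have hom := hp₄ p (by omega)
  have hb1 : C1 * (s99 a * (p : ℝ) ^ (1 / 4 : ℝ)) ≤ ε / 8 * Q := by
    rw [← hQ, ← mul_assoc]
    exact mul_le_mul_of_nonneg_right (ha₀ a ha) (by linarith)
  have hb2 : C2 * 4 ^ a * (p * (2 : ℝ) ^ (-(e / 4 * p))) ≤ ε / 8 * Q := by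
    have h4 : C2 * 4 ^ a * (p * (2 : ℝ) ^ (-(e / 4 * p))) ≤ (C2 * 4 ^ a + 1) * (ε / (8 * (C2 * 4 ^ a + 1))) :=
      mul_le_mul (by linarith) hom (by positivity) (by positivity)
    have h5 : (C2 * 4 ^ a + 1) * (ε / (8 * (C2 * 4 ^ a + 1))) = ε / 8 := by
      have : C2 * 4 ^ a + 1 ≠ 0 := by positivity
      field_simp
    rw [h5] at h4
    exact h4.trans (le_mul_of_one_le_right (by positivity) hQ1)
  have hb3 : ε / (8 * 2 ^ a) * (sqrt R * sqrt ((NN a p : ℕ) : ℝ)) ≤ sqrt R * (ε / 8 * Q) := by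
    have h4 := mul_le_mul_of_nonneg_left hsN (Real.sqrt_nonneg R)
    have h5 := mul_le_mul_of_nonneg_left h4 (show 0 ≤ ε / (8 * 2 ^ a) by positivity)
    refine h5.trans (le_of_eq ?_)
    field_simp
  have hb6 : C2 / ((T p : ℝ) + 1) ≤ ε / 16 * Q := by
    have h4 : (m₉ : ℝ) ≤ T p := by exact_mod_cast hp₈ p (by omega)
    have h5 : 16 * C2 / ε ≤ (T p : ℝ) + 1 := by linarith
    rw [div_le_iff₀ hε] at h5
    have h6 : C2 / ((T p : ℝ) + 1) ≤ ε / 16 := by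
      rw [div_le_iff₀ (by positivity)]
      linarith
    exact h6.trans (le_mul_of_one_le_right (by positivity) hQ1)
  have hb7 : C2 * 4 ^ (T p) ≤ sqrt R * (ε / 16 * Q) := by
    have h4 := hq₁ p (by omega) (T p) (hp₉ p (by omega))
    have h5 : ε / 16 * sqrt (2 ^ p) ≤ ε / 16 * sqrt R := mul_le_mul_of_nonneg_left hsR (by positivity)
    have h6 : ε / 16 * sqrt R ≤ sqrt R * (ε / 16 * Q) := by
      have h7 : 0 ≤ ε / 16 * sqrt R := by positivity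
      have h8 := le_mul_of_one_le_right h7 hQ1
      linarith
    linarith
  have hb4 : sqrt (2 ^ p) * (C1 * (s99 a * (p : ℝ) ^ (1 / 4 : ℝ)) + C2 * 4 ^ a * (p * (2 : ℝ) ^ (-(e / 4 * p))) + C2 / ((T p : ℝ) + 1)) ≤
      sqrt R * (ε / 8 * Q + ε / 8 * Q + ε / 16 * Q) :=
    mul_le_mul hsR (add_le_add (add_le_add hb1 hb2) hb6) (by have := s_nn99 a; positivity) (Real.sqrt_nonneg _)
  have hL : Q ≤ 2 * Lx p ^ (1 / 4 : ℝ) := by
    have h4 : (p : ℝ) ≤ 16 * Lx p := by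
      unfold Lx
      have h5 := log_two_gt_d9
      nlinarith
    have h5 : 0 ≤ Lx p := by
      unfold Lx
      have := log_two_gt_d9
      positivity
    rw [hQ]
    have h6 : (p : ℝ) ^ (1 / 4 : ℝ) ≤ (16 * Lx p) ^ (1 / 4 : ℝ) := rpow_le_rpow (Nat.cast_nonneg p) h4 (by norm_num)
    rw [mul_rpow (by norm_num) h5] at h6
    have h7 : (16 : ℝ) ^ (1 / 4 : ℝ) = 2 := by
      have e : (16 : ℝ) = 2 ^ (4 : ℝ) := by
        rw [show (4 : ℝ) = ((4 : ℕ) : ℝ) by norm_num, rpow_natCast]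
        norm_num
      rw [e, ← rpow_mul (by norm_num)]
      norm_num
    rwa [h7] at h6
  have hfin : sqrt R * (ε / 8 * Q + ε / 8 * Q + ε / 16 * Q) + sqrt R * (ε / 16 * Q) + sqrt R * (ε / 8 * Q) ≤ ε * (sqrt R * Lx p ^ (1 / 4 : ℝ)) := by
    have h4 : 0 ≤ sqrt R * ε := by positivity
    have h5 := mul_le_mul_of_nonneg_left hL h4
    have h6 : 0 ≤ sqrt R * ε * Lx p ^ (1 / 4 : ℝ) := by
      have : 0 ≤ Lx p := by
        unfold Lx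
        have := log_two_gt_d9
        positivity
      positivity
    linarith
  have h4 := h3.trans hb3
  linarith

/-- the truncated formula, hybrid form -/
theorem trunc_h {H : ℝ → ℝ} (h2 : ContDiff ℝ 2 H) (hp : Function.Periodic H (2 * π)) (hr : ∀ t, 0 < H t + deriv (deriv H) t) {G : ℕ → ℝ → ℝ} {K : ℝ}
    (hG : ∀ p, ContDiff ℝ 2 (G p)) (hGp : ∀ p, Function.Periodic (G p) (2 * π)) (hc : ∀ p t, |G p t - H t| ≤ K / 4 ^ p)
    (hd : ∀ ε : ℝ, 0 < ε → ∃ p₀ : ℕ, ∀ p : ℕ, p₀ ≤ p → ∀ t, |rho (G p) t - rho H t| ≤ ε)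
    {T : ℕ → ℕ} (hT1 : ∀ m : ℕ, ∃ p₀ : ℕ, ∀ p : ℕ, p₀ ≤ p → m ≤ T p) (hT2 : ∀ ε : ℝ, 0 < ε → ∃ p₀ : ℕ, ∀ p : ℕ, p₀ ≤ p → (T p : ℝ) ≤ ε * p)
    {e : ℝ} (he : 0 < e) (he1 : e ≤ 1 / 1000) (hS : SBl T G) (hH : SBh T e H) {ε : ℝ} (hε : 0 < ε) :
    ∃ a₀ : ℕ, ∀ a : ℕ, a₀ ≤ a → ∃ p₀ : ℕ, ∀ p : ℕ, p₀ ≤ p → ∀ R ∈ Icc ((2 : ℝ) ^ p) (2 ^ (p + 1)), ∀ c : ℝ × ℝ,
      |Er ((((1 : ℝ), (0 : ℝ)), ((0 : ℝ), (1 : ℝ))) : Fr) H c R - sqrt R * Mx H (NN a p) R c| ≤ ε * (sqrt R * Lx p ^ (1 / 4 : ℝ)) := by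
  obtain ⟨v, hv⟩ := exists_shift h2 hp hr
  obtain ⟨a₀, ha₀⟩ := pos_h99 h2 hv hG hGp hc hd hT1 hT2 he he1 hS hH hε
  refine ⟨a₀, fun a ha => ?_⟩
  obtain ⟨p₀, hp₀⟩ := ha₀ a ha
  refine ⟨p₀, fun p hp R hR c => ?_⟩
  have h := hp₀ p hp R hR (c.1 - R * v.1, c.2 - R * v.2)
  have h1 := lcnt_shf idf99 H v c R
  rw [lcnt_idf99] at h1
  rw [mx_shf99 h2, area_shf, h1] at h
  have e : Er ((((1 : ℝ), (0 : ℝ)), ((0 : ℝ), (1 : ℝ))) : Fr) H c R = lcnt idf99 H c R - area H * R ^ 2 := by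
    unfold Er
    have h3 : fdet ((((1 : ℝ), (0 : ℝ)), ((0 : ℝ), (1 : ℝ))) : Fr) = 1 := fdet_idf99
    rw [h3, abs_one, div_one]
    rfl
  rw [e]
  exact h

end Pool.Agent.Helper99.EY
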