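import Pool.Agent.Helper22.AI.Defs
import Pool.Agent.Helper99.EY.Trunc2
import Pool.Agent.Helper92.AO.F

/-!
# EY, AmpT: the hypotheses of `trunc_h` for `T = Amp.T`, and `SBh` from the bounds of the high blocks
-/

open MeasureTheory Real Set Filter Topology

set_option autoImplicit false

namespace Pool.Agent.Helper99.EY

open Pool.Agent.Helper22.AI
open Pool.Agent.Helper22.AE (IsSupp)
open Pool.Agent.Helper22.OV (shf)

/-- the level tends to infinity -/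
theorem amp_T1 [Amp] : ∀ m : ℕ, ∃ p₀ : ℕ, ∀ p : ℕ, p₀ ≤ p → m ≤ Amp.T p := by
  intro m
  obtain ⟨p₁, hp₁⟩ := eventually_atTop.1 Amp.big
  refine ⟨p₁ + m ^ 2, fun p hp => ?_⟩
  have h1 := hp₁ p (by omega)
  have h2 : m ^ 2 ≤ Amp.T p ^ 2 := by omega
  exact (Nat.pow_le_pow_iff_left (by norm_num)).1 h2

/-- the level is small compared with `p` -/
theorem amp_T2 [Amp] : ∀ ε : ℝ, 0 < ε → ∃ p₀ : ℕ, ∀ p : ℕ, p₀ ≤ p → (Amp.T p : ℝ) ≤ ε * p := by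
  intro ε hε
  obtain ⟨j, hj⟩ : ∃ j : ℕ, 1 / ε ≤ j := exists_nat_ge _
  obtain ⟨C, hC⟩ := Amp.sup j
  obtain ⟨p₀, hp₀⟩ : ∃ p₀ : ℕ, 2 * (C : ℝ) ≤ p₀ := exists_nat_ge _
  refine ⟨p₀, fun p hp => ?_⟩
  have h1 := Amp.lvl p
  have h2 := hC (Amp.T p)
  have h3 : (j : ℝ) * (Amp.T p : ℝ) ≤ (Amp.am (Amp.T p) : ℝ) + C := by exact_mod_cast h2
  have h4 : 2 * (Amp.am (Amp.T p) : ℝ) ≤ p := by exact_mod_cast h1
  have h5 : 2 * (C : ℝ) ≤ p := hp₀.trans (by exact_mod_cast hp)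
  have h6 : 0 ≤ (Amp.T p : ℝ) := Nat.cast_nonneg _
  have h7 : (j : ℝ) * (Amp.T p : ℝ) ≤ p := by linarith
  rw [div_le_iff₀ hε] at hj
  have h8 : (Amp.T p : ℝ) ≤ (j : ℝ) * ε * (Amp.T p : ℝ) := le_mul_of_one_le_left h6 hj
  have h9 := mul_le_mul_of_nonneg_left h7 hε.le
  linarith

/-- from the bounds of the high blocks of `H` (all positive translates) to `SBh` -/
theorem sbh_of_hig {T : ℕ → ℕ} {e : ℝ} {H : ℝ → ℝ}
    (h : ∃ p₀ : ℕ, ∀ p : ℕ, p₀ ≤ p → Pool.Agent.Helper92.AO.HiG {n : ℕ | T p < n ∧ (n : ℝ) ≤ (1 / 2 + e) * p} (2 ^ p / 2) (4 * 2 ^ p)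
      (fun n => sqrt (2 ^ p) / ((n : ℝ) + 1) ^ 2) H) : SBh T e H := by
  obtain ⟨p₀, h⟩ := h
  intro v hv
  refine ⟨1, p₀, fun p hp n hn1 hn2 R hR c => ?_⟩
  have h1 := h p hp v hv n ⟨hn1, hn2⟩ R hR c
  linarith

end Pool.Agent.Helper99.EY
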