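import Pool.Agent.Helper99.EX.Trunc

/-!
# EY, block T: the truncated formula, hybrid form. The estimate for one oval and one scale

The blocks `n ≤ m` come from the sums of the approximation `G`, the blocks `n > m` from those of `H` itself.
-/

open MeasureTheory Real Set Filter Topology

set_option autoImplicit false

namespace Pool.Agent.Helper99.EY

open Pool.Agent.Helper22.AE (ee rho nk tk box cz IsSupp IsBump ft fhat dom area dom_compact area_scale exists_bump ee_norm)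
open Pool.Agent.Helper22.AC (cntc smcc le_smcc smcc_le)
open Pool.Agent.Helper92.GC (dt sqa)
open Pool.Agent.Helper93.AO (gl SS)
open Pool.Agent.Helper93.EX
open Pool.Agent.Helper99.EX

private lemma mul_supp_h99 {G : ℝ → ℝ} (hG : IsSupp G) {r : ℝ} (hr : 0 < r) : IsSupp (fun θ => r * G θ) := by
  have := Pool.Agent.Helper22.LP.rot_isSupp hG hr 0
  simpa using this

private theorem area_mono_h99 {A B : ℝ → ℝ} (hB : IsSupp B) (h : ∀ θ, A θ ≤ B θ) : area A ≤ area B :=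
  ENNReal.toReal_mono (dom_compact hB).measure_lt_top.ne (measure_mono fun _ hp θ => (hp θ).trans (h θ))

private lemma rho_mul_h99 (H : ℝ → ℝ) (R θ : ℝ) : rho (fun θ => R * H θ) θ = R * rho H θ := by
  have h1 : deriv (fun θ => R * H θ) = fun θ => R * deriv H θ := by
    funext x
    rw [deriv_const_mul_field]
  unfold rho
  rw [h1, deriv_const_mul_field]
  ring

private lemma gl_nn_h99 (n p : ℕ) : 0 ≤ gl n p :=
  Finset.sum_nonneg fun _ _ => le_min (by positivity) (by positivity)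

/-- a block of one oval compared with that of another one -/
theorem blk_cmp99 {A B : ℝ → ℝ} (hA : IsSupp A) (hB : IsSupp B) (h : ∀ θ, A θ ≤ B θ) (n : ℕ) (c : ℝ × ℝ) {D y : ℝ} (hD : area B - area A ≤ D)
    (hy : ‖∑ k ∈ sqa (2 ^ n), ft B k * ee (dt k c)‖ ≤ y) : ‖∑ k ∈ sqa (2 ^ n), ft A k * ee (dt k c)‖ ≤ y + 36 * 4 ^ n * D := by
  have hD0 : 0 ≤ D := by
    have := area_mono_h99 hB h
    linarith
  have h1 : ∑ k ∈ sqa (2 ^ n), ft A k * ee (dt k c) = ∑ k ∈ sqa (2 ^ n), ft B k * ee (dt k c) -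
      ∑ k ∈ sqa (2 ^ n), (ft B k - ft A k) * ee (dt k c) := by
    rw [← Finset.sum_sub_distrib]
    refine Finset.sum_congr rfl fun k _ => ?_
    ring
  have h2 : ‖∑ k ∈ sqa (2 ^ n), (ft B k - ft A k) * ee (dt k c)‖ ≤ ((sqa (2 ^ n)).card : ℝ) * D := by
    refine (norm_sum_le _ _).trans ?_
    rw [← nsmul_eq_mul]
    refine Finset.sum_le_card_nsmul _ _ _ fun k _ => ?_
    rw [norm_mul, ee_norm, mul_one]
    exact (ft_sub99 hA hB h k).trans hD
  have h3 : ((sqa (2 ^ n)).card : ℝ) ≤ 36 * 4 ^ n := by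
    have h4 : sqa (2 ^ n) ⊆ lo (2 ^ (n + 1)) := by
      intro k hk
      rw [mem_sqa99] at hk
      rw [mem_lo]
      refine ⟨?_, hk.2⟩
      rintro rfl
      have h5 : sn (0 : ℤ × ℤ) = 0 := by simp [sn]
      have h6 : 0 < 2 ^ n := by positivity
      omega
    have h5 : ((sqa (2 ^ n)).card : ℝ) ≤ ((lo (2 ^ (n + 1))).card : ℝ) := by exact_mod_cast Finset.card_le_card h4
    have h6 := lo_card99 (N := 2 ^ (n + 1)) Nat.one_le_two_pow
    have h7 : (9 : ℝ) * ((2 ^ (n + 1) : ℕ) : ℝ) ^ 2 = 36 * 4 ^ n := by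
      push_cast
      have e1 : (4 : ℝ) ^ n = (2 ^ n) ^ 2 := by
        rw [← pow_mul, mul_comm n 2, pow_mul]
        norm_num
      rw [e1]
      ring
    linarith
  rw [h1]
  refine (norm_sub_le _ _).trans ?_
  have h4 := mul_le_mul_of_nonneg_right h3 hD0
  linarith

private lemma tele99 (m : ℕ) : ∀ n1 : ℕ, ∑ n ∈ Finset.range n1, (if n ≤ m then (0 : ℝ) else 1 / ((n : ℝ) + 1) ^ 2) ≤ 1 / ((m : ℝ) + 1) - 1 / ((max (n1 : ℝ) (m + 1)))
  | 0 => by
    have h : max ((0 : ℕ) : ℝ) (m + 1) = m + 1 := max_eq_right (by push_cast; positivity)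
    rw [h, Finset.sum_range_zero, sub_self]
  | n1 + 1 => by
    have ih := tele99 m n1
    rw [Finset.sum_range_succ]
    by_cases h : n1 ≤ m
    · have h1 : (n1 : ℝ) ≤ m := by exact_mod_cast h
      have e1 : max (n1 : ℝ) (m + 1) = m + 1 := max_eq_right (by linarith)
      have e2 : max ((n1 + 1 : ℕ) : ℝ) (m + 1) = m + 1 := max_eq_right (by push_cast; linarith)
      rw [if_pos h, add_zero, e2]
      rwa [e1] at ih
    · have h1 : (m : ℝ) + 1 ≤ n1 := by exact_mod_cast (by omega : m + 1 ≤ n1)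
      have e1 : max (n1 : ℝ) (m + 1) = n1 := max_eq_left h1
      have e2 : max ((n1 + 1 : ℕ) : ℝ) (m + 1) = n1 + 1 := by
        push_cast
        exact max_eq_left (by linarith)
      rw [if_neg h, e2]
      rw [e1] at ih
      have hm : (0 : ℝ) ≤ m := Nat.cast_nonneg m
      have hn : (0 : ℝ) < n1 := by linarith
      have h2 : 1 / ((n1 : ℝ) + 1) ^ 2 ≤ 1 / (n1 : ℝ) - 1 / ((n1 : ℝ) + 1) := by
        rw [div_sub_div _ _ hn.ne' (by positivity), div_le_div_iff₀ (by positivity) (by positivity)]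
        nlinarith
      linarith

private lemma tele_h99 (m n0 n1 : ℕ) : ∑ n ∈ Finset.Ico n0 n1, (if n ≤ m then (0 : ℝ) else 1 / ((n : ℝ) + 1) ^ 2) ≤ 1 / ((m : ℝ) + 1) := by
  have h1 := tele99 m n1
  have h2 : ∑ n ∈ Finset.Ico n0 n1, (if n ≤ m then (0 : ℝ) else 1 / ((n : ℝ) + 1) ^ 2) ≤ ∑ n ∈ Finset.range n1, (if n ≤ m then (0 : ℝ) else 1 / ((n : ℝ) + 1) ^ 2) := by
    refine Finset.sum_le_sum_of_subset_of_nonneg ?_ fun n _ _ => ?_
    · intro n hn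
      rw [Finset.mem_Ico] at hn
      exact Finset.mem_range.2 hn.2
    · split_ifs
      · exact le_rfl
      · positivity
  have h3 : (0 : ℝ) ≤ 1 / max (n1 : ℝ) (m + 1) := by
    have hm : (0 : ℝ) ≤ m := Nat.cast_nonneg m
    have : (0 : ℝ) < max (n1 : ℝ) (m + 1) := lt_of_lt_of_le (by linarith) (le_max_right _ _)
    positivity
  linarith

private lemma geo_h99 (m n0 n1 : ℕ) : ∑ n ∈ Finset.Ico n0 n1, (if n ≤ m then (4 : ℝ) ^ n else 0) ≤ 2 * 4 ^ m := by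
  have h1 : ∑ n ∈ Finset.Ico n0 n1, (if n ≤ m then (4 : ℝ) ^ n else 0) ≤ ∑ n ∈ Finset.range (m + 1), (4 : ℝ) ^ n := by
    rw [← Finset.sum_filter]
    refine Finset.sum_le_sum_of_subset_of_nonneg ?_ fun n _ _ => by positivity
    intro n hn
    rw [Finset.mem_filter] at hn
    exact Finset.mem_range.2 (by omega)
  have h2 : ∑ n ∈ Finset.range (m + 1), (4 : ℝ) ^ n ≤ 2 * 4 ^ m := by
    rw [geom_sum_eq (by norm_num), pow_succ]
    have : (0 : ℝ) < 4 ^ m := by positivity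
    rw [div_le_iff₀ (by norm_num)]
    linarith
  linarith

/-- the estimate for one scale -/
theorem est_h99 {M : ℝ} (hM : 2 ≤ M) {C K e : ℝ} (hC : 1 ≤ C) (hK : 0 ≤ K) (he : 0 < e) (he1 : e ≤ 1 / 1000) :
    ∃ (C1 C2 : ℝ) (P : ℕ), 0 ≤ C1 ∧ 0 ≤ C2 ∧ 1 ≤ P ∧ ∀ p : ℕ, P ≤ p → ∀ G H : ℝ → ℝ, IsSupp G → IsSupp H →
    (∀ t, 1 / M ≤ G t) → (∀ t, G t ≤ M) → (∀ t, rho G t ≤ M) → (∀ t, 1 / M ≤ H t) → (∀ t, H t ≤ M) → (∀ t, rho H t ≤ M) →
    (∀ t, |G t - H t| ≤ K / 4 ^ p) → ∀ m : ℕ,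
    (∀ n : ℕ, n ≤ m → ∀ (α r : ℝ) (c : ℝ × ℝ) (i : ℕ), |α| ≤ 1 → 2 ^ p / 4 ≤ r → r ≤ 16 * 2 ^ p → i = 1 ∨ i = 2 →
      ‖SS G idf99 α r c i (2 ^ n)‖ ≤ C * gl n p) →
    (∀ n : ℕ, m < n → (n : ℝ) ≤ (1 / 2 + e) * p → ∀ R ∈ Icc ((2 : ℝ) ^ p / 2) (4 * 2 ^ p), ∀ c : ℝ × ℝ,
      ‖∑ k ∈ sqa (2 ^ n), ft (fun θ => R * H θ) k * ee (dt k c)‖ ≤ C * (sqrt (2 ^ p) / ((n : ℝ) + 1) ^ 2 + 1)) →
    ∀ a : ℕ, 4 * a ≤ p → ∀ R ∈ Icc ((2 : ℝ) ^ p) (2 ^ (p + 1)), ∀ (c : ℝ × ℝ) (x : ℝ),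
      |cntc H c R - area H * R ^ 2 - x| ≤
        sqrt (2 ^ p) * (C1 * (s99 a * (p : ℝ) ^ (1 / 4 : ℝ)) + C2 * 4 ^ a * (p * (2 : ℝ) ^ (-(e / 4 * p))) + C2 / ((m : ℝ) + 1)) + C2 * 4 ^ m +
        ‖∑ k ∈ lo (NN a p), ft (fun θ => R * H θ) k * ee (-((k.1 : ℝ) * c.1 + (k.2 : ℝ) * c.2)) - (x : ℂ)‖ := by
  have hM0 : 0 < M := by linarith
  obtain ⟨φ, hφ⟩ := exists_bump
  obtain ⟨T0, hT0, hpoi⟩ := smcc_low99 hφ (τ := 1 / 2 + e / 4) (e2 := e / 4) (I := 4 * π * M) (by positivity) (by linarith)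
    (by positivity) (by positivity)
  obtain ⟨B0, hB0, hblk⟩ := blk_idf99 hM
  obtain ⟨p₁, hp₁⟩ : ∃ p₁ : ℕ, M * K * 8 ≤ 4 ^ p₁ := by
    obtain ⟨n, hn⟩ := pow_unbounded_of_one_lt (M * K * 8) (show (1 : ℝ) < 4 by norm_num)
    exact ⟨n, hn.le⟩
  obtain ⟨p₂, hp₂⟩ : ∃ p₂ : ℕ, M * 4 ≤ 2 ^ p₂ := by
    obtain ⟨n, hn⟩ := pow_unbounded_of_one_lt (M * 4) (show (1 : ℝ) < 2 by norm_num)
    exact ⟨n, hn.le⟩
  obtain ⟨D1, hD1⟩ : ∃ D1 : ℝ, D1 = 4 * M ^ 2 * (8 * M) := ⟨_, rfl⟩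
  have hD10 : 0 ≤ D1 := by
    rw [hD1]
    positivity
  obtain ⟨D2, hD2⟩ : ∃ D2 : ℝ, D2 = 256 * M ^ 3 * K := ⟨_, rfl⟩
  have hD20 : 0 ≤ D2 := by
    rw [hD2]
    positivity
  refine ⟨B0 * C, D1 + T0 + 9 * (D1 + 16 * π * M) + 2 * (B0 + C) + 72 * D2 + C, p₁ + p₂ + 1, by positivity, by positivity, by omega, ?_⟩
  intro p hp G H hG hH hG1 hG2 hG3 hH1 hH2 hH3 hd m hS hHi a ha R hR c x
  have hp1 : 1 ≤ p := by omega
  have hpr : (1 : ℝ) ≤ p := by exact_mod_cast hp1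
  have hC0 : 0 < C := by linarith
  obtain ⟨X, hX⟩ : ∃ X : ℝ, X = 2 ^ p := ⟨_, rfl⟩
  have hXr : X = (2 : ℝ) ^ (p : ℝ) := by rw [hX, Real.rpow_natCast]
  have hR' : X ≤ R ∧ R ≤ 2 * X := by
    rw [hX]
    refine ⟨hR.1, ?_⟩
    have := hR.2
    rw [pow_succ] at this
    linarith
  rw [← hX] at hS hHi ⊢
  have hX2 : 2 ≤ X := by
    rw [hX]
    calc (2 : ℝ) = 2 ^ 1 := by norm_num
      _ ≤ 2 ^ p := pow_le_pow_right₀ (by norm_num) hp1
  have hX0 : 0 < X := by linarith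
  have hR0 : 0 < R := by linarith
  have hMX : M * 4 ≤ X := by
    rw [hX]
    exact hp₂.trans (pow_le_pow_right₀ (by norm_num) (by omega))
  have hX4 : X ^ 2 = 4 ^ p := by
    rw [hX, ← pow_mul, mul_comm p 2, pow_mul]
    norm_num
  -- the small quantities
  obtain ⟨κ, hκ⟩ : ∃ κ : ℝ, κ = M * (K / 4 ^ p) := ⟨_, rfl⟩
  have hκ0 : 0 ≤ κ := by
    rw [hκ]
    positivity
  have hκ1 : κ ≤ 1 / 8 := by
    rw [hκ, ← mul_div_assoc, div_le_iff₀ (by positivity)]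
    have : (4 : ℝ) ^ p₁ ≤ 4 ^ p := pow_le_pow_right₀ (by norm_num) (by omega)
    linarith only [hp₁, this]
  have hκX : κ * X ^ 2 = M * K := by
    rw [hκ, hX4]
    field_simp
  obtain ⟨δ, hδ⟩ : ∃ δ : ℝ, δ = X ^ (-(1 / 2 + e / 4) : ℝ) := ⟨_, rfl⟩
  have hδ0 : 0 < δ := by
    rw [hδ]
    positivity
  have hδ1 : δ ≤ 1 := by
    rw [hδ]
    exact Real.rpow_le_one_of_one_le_of_nonpos (by linarith only [hM, hMX]) (by linarith only [he])
  obtain ⟨w, hw⟩ : ∃ w : ℝ, w = (2 : ℝ) ^ (-(e / 4 * p)) := ⟨_, rfl⟩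
  have hw0 : 0 < w := by
    rw [hw]
    positivity
  have hδX : δ * X = sqrt X * w := by
    rw [hδ, hw, Real.sqrt_eq_rpow]
    nth_rewrite 2 [← Real.rpow_one X]
    rw [← Real.rpow_add hX0, hXr, ← Real.rpow_mul (by norm_num), ← Real.rpow_mul (by norm_num), ← Real.rpow_add (by norm_num)]
    congr 1
    ring
  have hone : 1 ≤ sqrt X * w := by
    rw [hw, Real.sqrt_eq_rpow, hXr, ← Real.rpow_mul (by norm_num), ← Real.rpow_add (by norm_num)]
    refine Real.one_le_rpow (by norm_num) ?_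
    have h1 : e / 4 * p ≤ 1 / 4000 * p := mul_le_mul_of_nonneg_right (by linarith only [he1]) (by linarith only [hpr])
    linarith only [hpr, h1]
  -- the numbers
  obtain ⟨n1, hn1⟩ : ∃ n1 : ℕ, n1 = ⌈(1 / 2 + e / 2 : ℝ) * p⌉₊ := ⟨_, rfl⟩
  have hep : 0 ≤ e * p := by positivity
  have hep1 : e * p ≤ 1 / 1000 * p := mul_le_mul_of_nonneg_right he1 (by linarith only [hpr])
  have hn1a : (1 / 2 + e / 2 : ℝ) * p ≤ n1 := by
    rw [hn1]
    exact Nat.le_ceil _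
  have hn1b : (n1 : ℝ) < (1 / 2 + e / 2 : ℝ) * p + 1 := by
    rw [hn1]
    exact Nat.ceil_lt_add_one (by positivity)
  have hn1c : ∀ n : ℕ, n < n1 → (n : ℝ) ≤ (1 / 2 + e) * p := by
    intro n hn
    rw [hn1, Nat.lt_ceil] at hn
    linarith only [hep, hn]
  have hn1d : (n1 : ℝ) ≤ 2 * p := by linarith only [hpr, hn1b, hep1]
  obtain ⟨n0, hn0⟩ : ∃ n0 : ℕ, n0 = Nat.log 2 p / 2 + a := ⟨_, rfl⟩
  have h01 : n0 ≤ n1 := by
    have h1 := n0_le99 hp1 ha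
    have h2 : p ≤ 2 * n1 := by
      have : (p : ℝ) ≤ 2 * n1 := by linarith only [hep, hn1a]
      exact_mod_cast this
    omega
  have hNN : NN a p = 2 ^ n0 := by
    rw [hn0]
    rfl
  have hN1 : 1 ≤ NN a p := by
    rw [hNN]
    exact Nat.one_le_two_pow
  have hRn : X ^ ((1 / 2 + e / 4 : ℝ) + e / 4) ≤ 2 ^ n1 := by
    rw [hXr, ← Real.rpow_mul (by norm_num), ← Real.rpow_natCast 2 n1]
    refine Real.rpow_le_rpow_of_exponent_le (by norm_num) ?_
    linarith only [hn1a]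
  have hRH : IsSupp (fun θ => R * H θ) := mul_supp_h99 hH hR0
  -- the areas
  have haG : area G ≤ 4 * M ^ 2 := Pool.Agent.Helper22.LP.area_le_u hM0.le hG2
  have haG0 : 0 ≤ area G := ENNReal.toReal_nonneg
  have haH : area H ≤ 4 * M ^ 2 := Pool.Agent.Helper22.LP.area_le_u hM0.le hH2
  have haH0 : 0 ≤ area H := ENNReal.toReal_nonneg
  obtain ⟨D, hD⟩ : ∃ D : ℝ, D = D1 * (sqrt X * w) := ⟨_, rfl⟩
  -- comparison of the ovals
  have hHδ : ∀ θ, δ ≤ M * δ * H θ := by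
    intro θ
    have h1 := mul_le_mul_of_nonneg_left (hH1 θ) (show 0 ≤ M * δ by positivity)
    have h2 : M * δ * (1 / M) = δ := by field_simp
    linarith only [h1, h2]
  have hGκ : ∀ θ, K / 4 ^ p ≤ κ * G θ := by
    intro θ
    have h1 := mul_le_mul_of_nonneg_left (hG1 θ) hκ0
    have h2 : κ * (1 / M) = K / 4 ^ p := by
      rw [hκ]
      field_simp
    linarith only [h1, h2]
  have hup : ∀ θ, H θ ≤ (1 + κ) * G θ := by
    intro θ
    have h1 := (abs_le.1 (hd θ)).1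
    have h2 := hGκ θ
    linarith only [h1, h2]
  have hlo : ∀ θ, (1 - κ) * G θ ≤ H θ := by
    intro θ
    have h1 := (abs_le.1 (hd θ)).2
    have h2 := hGκ θ
    linarith only [h1, h2]
  have harl : (1 - κ) ^ 2 * area G ≤ area H := by
    rw [← area_scale hG (show 0 < 1 - κ by linarith only [hκ1])]
    exact area_mono_h99 hH hlo
  -- the blocks
  obtain ⟨Bn, hBn⟩ : ∃ Bn : ℕ → ℝ, Bn = fun n => B0 * (X ^ (1 / 2 : ℝ) * ((2 ^ n : ℕ) : ℝ) ^ (-(3 / 2) : ℝ) * (C * gl n p) + 1) +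
      36 * D2 * (if n ≤ m then (4 : ℝ) ^ n else 0) + C * sqrt X * (if n ≤ m then (0 : ℝ) else 1 / ((n : ℝ) + 1) ^ 2) + C := ⟨_, rfl⟩
  have hblock : ∀ r : ℝ, X / 2 ≤ r → r ≤ 3 * X → ∀ n : ℕ, n < n1 → ∀ c' : ℝ × ℝ,
      ‖∑ k ∈ sqa (2 ^ n), ft (fun θ => r * H θ) k * ee (dt k c')‖ ≤ Bn n := by
    intro r hr1 hr2 n hn c'
    have hr0 : 0 < r := by linarith only [hX0, hr1]
    have hgl := gl_nn_h99 n p
    by_cases hnm : n ≤ m
    · obtain ⟨r', hr'⟩ : ∃ r' : ℝ, r' = (1 + κ) * r := ⟨_, rfl⟩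
      have hκr : 0 ≤ κ * r := mul_nonneg hκ0 hr0.le
      have hκr2 : κ * r ≤ 1 / 8 * (3 * X) := mul_le_mul hκ1 hr2 hr0.le (by norm_num)
      have hr'1 : X / 2 ≤ r' := by
        rw [hr']
        linarith only [hr1, hκr]
      have hr'2 : r' ≤ 4 * X := by
        rw [hr']
        linarith only [hr2, hκr2, hX0]
      have hr'0 : 0 < r' := by linarith only [hX0, hr'1]
      have h1 := hblk G hG hG3 (2 ^ n) Nat.one_le_two_pow X r' (by linarith only [hX2]) ⟨hr'1, hr'2⟩ (C * gl n p) (fun α hα c'' i hi =>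
        hS n hnm α r' c'' i hα (by linarith only [hX0, hr'1]) (by linarith only [hX0, hr'2]) hi) c'
      have hcmp : ∀ θ, r * H θ ≤ r' * G θ := by
        intro θ
        have h2 := mul_le_mul_of_nonneg_left (hup θ) hr0.le
        rw [hr']
        linarith only [h2]
      have hDd : area (fun θ => r' * G θ) - area (fun θ => r * H θ) ≤ D2 := by
        have ea : area (fun θ => r' * G θ) = r' ^ 2 * area G := area_scale hG hr'0
        have eb : area (fun θ => r * H θ) = r ^ 2 * area H := area_scale hH hr0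
        rw [ea, eb, hr']
        have h2 := mul_le_mul_of_nonneg_left harl (sq_nonneg r)
        have h3 : ((1 + κ) * r) ^ 2 * area G - r ^ 2 * ((1 - κ) ^ 2 * area G) = 4 * κ * r ^ 2 * area G := by ring
        have h4 : r ^ 2 ≤ 9 * X ^ 2 := by
          have := pow_le_pow_left₀ hr0.le hr2 2
          linarith only [this]
        have h5 : 4 * κ * r ^ 2 * area G ≤ 4 * κ * (9 * X ^ 2) * (4 * M ^ 2) :=
          mul_le_mul (mul_le_mul_of_nonneg_left h4 (by positivity)) haG haG0 (by positivity)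
        have h6 : 4 * κ * (9 * X ^ 2) * (4 * M ^ 2) = 144 * M ^ 2 * (κ * X ^ 2) := by ring
        have h7 : 144 * M ^ 2 * (M * K) ≤ D2 := by
          rw [hD2]
          have : 0 ≤ M ^ 3 * K := by positivity
          linarith only [this]
        rw [h6, hκX] at h5
        linarith only [h2, h3, h5, h7]
      have h8 := blk_cmp99 (mul_supp_h99 hH hr0) (mul_supp_h99 hG hr'0) hcmp n c' hDd h1
      refine h8.trans ?_
      rw [hBn]
      simp only [if_pos hnm]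
      linarith only [hC0]
    · have h1 := hHi n (by omega) (hn1c n hn) r ⟨hr1, by linarith only [hX0, hr2]⟩ c'
      refine h1.trans ?_
      rw [hBn]
      simp only [if_neg hnm]
      have h2 : 0 ≤ B0 * (X ^ (1 / 2 : ℝ) * ((2 ^ n : ℕ) : ℝ) ^ (-(3 / 2) : ℝ) * (C * gl n p) + 1) := by
        have h3 : 0 ≤ X ^ (1 / 2 : ℝ) * ((2 ^ n : ℕ) : ℝ) ^ (-(3 / 2) : ℝ) * (C * gl n p) := by positivity
        have : 0 ≤ X ^ (1 / 2 : ℝ) * ((2 ^ n : ℕ) : ℝ) ^ (-(3 / 2) : ℝ) * (C * gl n p) + 1 := by linarith only [h3]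
        exact mul_nonneg hB0.le this
      have h3 : C * (sqrt X / ((n : ℝ) + 1) ^ 2 + 1) = C * sqrt X * (1 / ((n : ℝ) + 1) ^ 2) + C := by ring
      rw [h3]
      linarith only [h2]
  have hsumB : ∑ n ∈ Finset.Ico n0 n1, Bn n ≤ B0 * (sqrt X * (C * (s99 a * (p : ℝ) ^ (1 / 4 : ℝ)))) + (B0 + C) * (2 * p) + 72 * D2 * 4 ^ m +
      C * sqrt X * (1 / ((m : ℝ) + 1)) := by
    have e1 : ∀ n : ℕ, Bn n = B0 * (sqrt X * (C * ((2 : ℝ) ^ (-(3 / 2) * n : ℝ) * gl n p))) + (B0 + C) +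
        36 * D2 * (if n ≤ m then (4 : ℝ) ^ n else 0) + C * sqrt X * (if n ≤ m then (0 : ℝ) else 1 / ((n : ℝ) + 1) ^ 2) := by
      intro n
      have h2 : ((2 ^ n : ℕ) : ℝ) ^ (-(3 / 2) : ℝ) = (2 : ℝ) ^ (-(3 / 2) * n : ℝ) := by
        rw [Nat.cast_pow, Nat.cast_ofNat, ← Real.rpow_natCast, ← Real.rpow_mul (by norm_num)]
        congr 1
        ring
      rw [hBn]
      simp only
      rw [h2, ← Real.sqrt_eq_rpow]
      ring
    rw [Finset.sum_congr rfl fun n _ => e1 n, Finset.sum_add_distrib, Finset.sum_add_distrib, Finset.sum_add_distrib, ← Finset.mul_sum, ← Finset.mul_sum,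
      ← Finset.mul_sum, ← Finset.mul_sum, ← Finset.mul_sum, Finset.sum_const, Nat.card_Ico, nsmul_eq_mul]
    have h1 := gl_tail99 a n1 hp1
    rw [← hn0] at h1
    have h2 := mul_le_mul_of_nonneg_left (mul_le_mul_of_nonneg_left (mul_le_mul_of_nonneg_left h1 hC0.le) (Real.sqrt_nonneg X)) hB0.le
    have h3 : ((n1 - n0 : ℕ) : ℝ) ≤ 2 * p := by
      have : ((n1 - n0 : ℕ) : ℝ) ≤ n1 := by exact_mod_cast Nat.sub_le _ _
      linarith only [hn1d, this]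
    have h4 := mul_le_mul_of_nonneg_right h3 (show 0 ≤ B0 + C by linarith only [hB0, hC0])
    have h5 := mul_le_mul_of_nonneg_left (geo_h99 m n0 n1) (show 0 ≤ 36 * D2 by positivity)
    have h6 := mul_le_mul_of_nonneg_left (tele_h99 m n0 n1) (show 0 ≤ C * sqrt X by positivity)
    linarith only [h2, h4, h5, h6]
  -- one side
  have hside : ∀ r : ℝ, X / 2 ≤ r → r ≤ 3 * X → ((∀ θ, r * H θ ≤ R * H θ) ∨ (∀ θ, R * H θ ≤ r * H θ)) →
      |r ^ 2 * area H - R ^ 2 * area H| ≤ D →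
      |smcc φ δ (fun θ => r * H θ) c - R ^ 2 * area H - x| ≤ T0 + ∑ n ∈ Finset.Ico n0 n1, Bn n + D +
        9 * ((NN a p : ℕ) : ℝ) ^ 2 * (D + 16 * π * M * (δ * X)) +
        ‖∑ k ∈ lo (NN a p), ft (fun θ => R * H θ) k * ee (-((k.1 : ℝ) * c.1 + (k.2 : ℝ) * c.2)) - (x : ℂ)‖ := by
    intro r hr1 hr2 hcmp hDr
    have hr0 : 0 < r := by linarith only [hX0, hr1]
    have hrH := mul_supp_h99 hH hr0
    have hIr : ∫ t in (0 : ℝ)..(2 * π), rho (fun θ => r * H θ) t ≤ 8 * π * M * X := by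
      simp only [rho_mul_h99]
      rw [intervalIntegral.integral_const_mul]
      have h1 : ∫ t in (0 : ℝ)..(2 * π), rho H t ≤ ∫ _t in (0 : ℝ)..(2 * π), M := by
        refine intervalIntegral.integral_mono_on (by positivity) ?_ (continuous_const.intervalIntegrable _ _) fun t _ => hH3 t
        apply Continuous.intervalIntegrable
        exact Pool.Agent.Helper22.OV.o3_rho_cont hH.smooth
      rw [intervalIntegral.integral_const, smul_eq_mul, sub_zero] at h1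
      have h2 : 0 ≤ ∫ t in (0 : ℝ)..(2 * π), rho H t :=
        intervalIntegral.integral_nonneg (by positivity) fun t _ => (hH.rho_pos t).le
      calc r * ∫ t in (0 : ℝ)..(2 * π), rho H t ≤ 4 * X * (2 * π * M) := mul_le_mul (by linarith only [hr2, hX0]) h1 h2 (by positivity)
        _ = 8 * π * M * X := by ring
    have hvol : area (fun θ => r * H θ) = r ^ 2 * area H := area_scale hH hr0
    have hvolR : area (fun θ => R * H θ) = R ^ 2 * area H := area_scale hH hR0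
    have h1 := hpoi (fun θ => r * H θ) hrH X hX2 (hIr.trans (le_of_eq (by ring))) n0 n1 h01 hRn Bn (fun n _ hn1' c' => hblock r hr1 hr2 n hn1' c') c
    rw [← hδ, ← hNN] at h1
    have h2 := low_cmp99 hrH hRH hcmp hφ hδ0 hN1 c
    rw [hvol] at h1
    rw [hvol, hvolR] at h2
    obtain ⟨S1, hS1⟩ : ∃ S1 : ℂ, S1 = ∑ k ∈ lo (NN a p), ft (fun θ => r * H θ) k * fhat φ (δ * k.1) (δ * k.2) * ee (-((k.1 : ℝ) * c.1 + (k.2 : ℝ) * c.2)) := ⟨_, rfl⟩
    obtain ⟨S2, hS2⟩ : ∃ S2 : ℂ, S2 = ∑ k ∈ lo (NN a p), ft (fun θ => R * H θ) k * ee (-((k.1 : ℝ) * c.1 + (k.2 : ℝ) * c.2)) := ⟨_, rfl⟩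
    rw [← hS1] at h1
    rw [← hS1, ← hS2] at h2
    rw [← hS2]
    have h3 : |r ^ 2 * area H - R ^ 2 * area H| + 2 * δ * (∫ t in (0 : ℝ)..(2 * π), rho (fun θ => r * H θ) t) ≤ D + 16 * π * M * (δ * X) := by
      have := mul_le_mul_of_nonneg_left hIr (show 0 ≤ 2 * δ by positivity)
      linarith only [hDr, this]
    have h4 := mul_le_mul_of_nonneg_left h3 (show 0 ≤ 9 * ((NN a p : ℕ) : ℝ) ^ 2 by positivity)
    obtain ⟨y, hy⟩ : ∃ y : ℝ, y = smcc φ δ (fun θ => r * H θ) c := ⟨_, rfl⟩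
    rw [← hy] at h1 ⊢
    have h5 : ((y - R ^ 2 * area H - x : ℝ) : ℂ) = (((y : ℝ) : ℂ) - ((r ^ 2 * area H : ℝ) : ℂ) - S1) +
        ((r ^ 2 * area H - R ^ 2 * area H : ℝ) : ℂ) + (S1 - S2) + (S2 - (x : ℂ)) := by
      push_cast
      ring
    have h6 : |y - R ^ 2 * area H - x| = ‖((y - R ^ 2 * area H - x : ℝ) : ℂ)‖ := by
      rw [Complex.norm_real, Real.norm_eq_abs]
    have h7 : ‖((r ^ 2 * area H - R ^ 2 * area H : ℝ) : ℂ)‖ ≤ D := by
      rw [Complex.norm_real, Real.norm_eq_abs]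
      exact hDr
    rw [h6, h5]
    have h8 := norm_add₄_le (a := (((y : ℝ) : ℂ) - ((r ^ 2 * area H : ℝ) : ℂ) - S1)) (b := ((r ^ 2 * area H - R ^ 2 * area H : ℝ) : ℂ))
      (c := S1 - S2) (d := S2 - (x : ℂ))
    linarith only [h2, h4, h1, h7, h8]
  have hMδ : M * δ ≤ X / 4 := by
    have := mul_le_mul_of_nonneg_left hδ1 hM0.le
    linarith only [hMX, this]
  have hMδ0 : 0 < M * δ := by positivity
  have hDD : M * δ * (8 * X) * area H ≤ D := by
    have e1 : M * δ * (8 * X) = 8 * M * (δ * X) := by ring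
    have h0 : 0 ≤ 8 * M * (δ * X) := by positivity
    rw [e1]
    refine (mul_le_mul_of_nonneg_left haH h0).trans ?_
    rw [hδX, hD, hD1]
    refine le_of_eq ?_
    ring
  -- the upper bound
  obtain ⟨E, hE⟩ : ∃ E : ℝ, E = T0 + ∑ n ∈ Finset.Ico n0 n1, Bn n + D + 9 * ((NN a p : ℕ) : ℝ) ^ 2 * (D + 16 * π * M * (δ * X)) +
        ‖∑ k ∈ lo (NN a p), ft (fun θ => R * H θ) k * ee (-((k.1 : ℝ) * c.1 + (k.2 : ℝ) * c.2)) - (x : ℂ)‖ := ⟨_, rfl⟩
  rw [← hE] at hside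
  have hcnt : cntc H c R =
      (Nat.card {k : ℤ × ℤ // ((k.1 : ℝ) - c.1, (k.2 : ℝ) - c.2) ∈ dom (fun θ => R * H θ)} : ℝ) := rfl
  have hprod : ∀ v : ℝ, 0 ≤ v → v ≤ 8 * X → M * δ * v * area H ≤ D := by
    intro v hv0 hv
    refine le_trans ?_ hDD
    exact mul_le_mul_of_nonneg_right (mul_le_mul_of_nonneg_left hv hMδ0.le) haH0
  have hupper : cntc H c R - R ^ 2 * area H - x ≤ E := by
    obtain ⟨r, hr⟩ : ∃ r : ℝ, r = R + M * δ := ⟨_, rfl⟩
    have hr1 : X / 2 ≤ r := by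
      rw [hr]
      linarith only [hX0, hMδ0, hR'.1]
    have hr2 : r ≤ 3 * X := by
      rw [hr]
      linarith only [hX0, hMδ, hR'.2]
    have hcmp : ∀ θ, R * H θ + δ ≤ r * H θ := by
      intro θ
      have h2 := hHδ θ
      rw [hr]
      linarith only [h2]
    have hDr : |r ^ 2 * area H - R ^ 2 * area H| ≤ D := by
      have h1 := hprod (r + R) (by rw [hr]; linarith only [hMδ0, hR0]) (by rw [hr]; linarith only [hX0, hMδ, hR'.2])
      have e1 : r ^ 2 * area H - R ^ 2 * area H = M * δ * (r + R) * area H := by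
        rw [hr]
        ring
      rw [e1, abs_of_nonneg]
      · exact h1
      · have : 0 ≤ r + R := by
          rw [hr]
          linarith only [hMδ0, hR0]
        positivity
    have h1 := hside r hr1 hr2 (Or.inr fun θ => by linarith only [hδ0, hcmp θ]) hDr
    have h2 : cntc H c R ≤ smcc φ δ (fun θ => r * H θ) c := by
      rw [hcnt]
      exact le_smcc hRH (mul_supp_h99 hH (by rw [hr]; linarith only [hMδ0, hR0])) hφ hδ0 hcmp c
    have h3 := (abs_le.1 h1).2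
    linarith only [h2, h3]
  have hlower : -E ≤ cntc H c R - R ^ 2 * area H - x := by
    obtain ⟨r, hr⟩ : ∃ r : ℝ, r = R - M * δ := ⟨_, rfl⟩
    have hr1 : X / 2 ≤ r := by
      rw [hr]
      linarith only [hX0, hMδ, hR'.1]
    have hr2 : r ≤ 3 * X := by
      rw [hr]
      linarith only [hX0, hMδ0, hR'.2]
    have hr0 : 0 < r := by linarith only [hr1, hX0]
    have hcmp : ∀ θ, r * H θ + δ ≤ R * H θ := by
      intro θ
      have h2 := hHδ θ
      rw [hr]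
      linarith only [h2]
    have hDr : |r ^ 2 * area H - R ^ 2 * area H| ≤ D := by
      have h1 := hprod (r + R) (by linarith only [hr0, hR0]) (by rw [hr]; linarith only [hX0, hMδ0, hR'.2])
      have e1 : r ^ 2 * area H - R ^ 2 * area H = -(M * δ * (r + R) * area H) := by
        rw [hr]
        ring
      rw [e1, abs_neg, abs_of_nonneg]
      · exact h1
      · positivity
    have h1 := hside r hr1 hr2 (Or.inl fun θ => by linarith only [hδ0, hcmp θ]) hDr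
    have h2 : smcc φ δ (fun θ => r * H θ) c ≤ cntc H c R := by
      rw [hcnt]
      exact smcc_le (mul_supp_h99 hH hr0) hRH hφ hδ0 hcmp c
    have h3 := (abs_le.1 h1).1
    linarith only [h2, h3]
  have hmain : |cntc H c R - area H * R ^ 2 - x| ≤ E := by
    rw [abs_le]
    constructor
    · linarith only [hlower]
    · linarith only [hupper]
  refine hmain.trans ?_
  rw [hE, ← hw]
  refine add_le_add ?_ le_rfl
  -- the numbers
  have hsX : 0 < sqrt X := Real.sqrt_pos.2 hX0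
  obtain ⟨Q, hQ⟩ : ∃ Q : ℝ, Q = sqrt X * (p * w) := ⟨_, rfl⟩
  have hQ1 : sqrt X * w ≤ Q := by
    rw [hQ]
    have : w ≤ p * w := le_mul_of_one_le_left hw0.le hpr
    exact mul_le_mul_of_nonneg_left this hsX.le
  have hpQ : (p : ℝ) ≤ Q := by
    have h1 := mul_le_mul_of_nonneg_left hone (show (0 : ℝ) ≤ p by positivity)
    rw [hQ]
    linarith only [h1]
  have hQ0 : 0 ≤ Q := by linarith only [hone, hQ1]
  have h4a : (1 : ℝ) ≤ 4 ^ a := one_le_pow₀ (by norm_num)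
  have hNsq := NN_sq99 hp1 a
  have t1 : T0 ≤ T0 * Q := le_mul_of_one_le_right hT0 (hone.trans hQ1)
  have t2 : D ≤ D1 * Q := by
    rw [hD]
    exact mul_le_mul_of_nonneg_left hQ1 hD10
  have t3 : 9 * ((NN a p : ℕ) : ℝ) ^ 2 * (D + 16 * π * M * (δ * X)) ≤ 9 * (4 ^ a * ((D1 + 16 * π * M) * Q)) := by
    have e1 : D + 16 * π * M * (δ * X) = (D1 + 16 * π * M) * (sqrt X * w) := by
      rw [hD, hδX]
      ring
    rw [e1]
    have h0 : 0 ≤ (D1 + 16 * π * M) * (sqrt X * w) := by positivity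
    have h1 := mul_le_mul_of_nonneg_right hNsq h0
    have h2 : 4 ^ a * (p : ℝ) * ((D1 + 16 * π * M) * (sqrt X * w)) = 4 ^ a * ((D1 + 16 * π * M) * Q) := by
      rw [hQ]
      ring
    linarith only [h1, h2]
  have t4 : (B0 + C) * (2 * p) ≤ 2 * (B0 + C) * Q := by
    have h1 := mul_le_mul_of_nonneg_left hpQ (show 0 ≤ B0 + C by linarith only [hB0, hC0])
    linarith only [h1]
  obtain ⟨Y, hY⟩ : ∃ Y : ℝ, Y = D1 + T0 + 2 * (B0 + C) := ⟨_, rfl⟩
  have hY0 : 0 ≤ Y := by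
    rw [hY]
    positivity
  have t5 : Y * Q ≤ Y * (4 ^ a * Q) :=
    mul_le_mul_of_nonneg_left (le_mul_of_one_le_left hQ0 h4a) hY0
  obtain ⟨Z, hZ⟩ : ∃ Z : ℝ, Z = 9 * (D1 + 16 * π * M) := ⟨_, rfl⟩
  have hZ0 : 0 ≤ Z := by
    rw [hZ]
    positivity
  obtain ⟨C2, hC2⟩ : ∃ C2 : ℝ, C2 = D1 + T0 + 9 * (D1 + 16 * π * M) + 2 * (B0 + C) + 72 * D2 + C := ⟨_, rfl⟩
  have hC2e : C2 = Y + Z + 72 * D2 + C := by
    rw [hC2, hY, hZ]
    ring
  rw [← hC2]
  have hm0 : (0 : ℝ) ≤ 4 ^ m := by positivity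
  have t6 : 72 * D2 * 4 ^ m ≤ C2 * 4 ^ m := by
    refine mul_le_mul_of_nonneg_right ?_ hm0
    rw [hC2e]
    linarith only [hY0, hZ0, hC0]
  have hmm : (0 : ℝ) < (m : ℝ) + 1 := by positivity
  have t7 : C * sqrt X * (1 / ((m : ℝ) + 1)) ≤ sqrt X * (C2 / ((m : ℝ) + 1)) := by
    have h1 : C ≤ C2 := by
      rw [hC2e]
      linarith only [hY0, hZ0, hD20]
    have h2 : C / ((m : ℝ) + 1) ≤ C2 / ((m : ℝ) + 1) := div_le_div_of_nonneg_right h1 hmm.le
    have h3 := mul_le_mul_of_nonneg_left h2 hsX.le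
    have h4 : C * sqrt X * (1 / ((m : ℝ) + 1)) = sqrt X * (C / ((m : ℝ) + 1)) := by ring
    rw [h4]
    exact h3
  have t8 : Y * (4 ^ a * Q) + Z * (4 ^ a * Q) ≤ sqrt X * (C2 * 4 ^ a * (p * w)) := by
    have h1 : Y + Z ≤ C2 := by
      rw [hC2e]
      linarith only [hD20, hC0]
    have h2 : 0 ≤ 4 ^ a * Q := by positivity
    have h3 := mul_le_mul_of_nonneg_right h1 h2
    have h4 : sqrt X * (C2 * 4 ^ a * (p * w)) = C2 * (4 ^ a * Q) := by
      rw [hQ]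
      ring
    rw [h4]
    linarith only [h3]
  have t9 : T0 + D + (B0 + C) * (2 * p) ≤ Y * Q := by
    rw [hY]
    linarith only [t1, t2, t4]
  have t10 : 9 * (4 ^ a * ((D1 + 16 * π * M) * Q)) = Z * (4 ^ a * Q) := by
    rw [hZ]
    ring
  have e6 : sqrt X * (B0 * C * (s99 a * (p : ℝ) ^ (1 / 4 : ℝ)) + C2 * 4 ^ a * (p * w) + C2 / ((m : ℝ) + 1)) =
      B0 * (sqrt X * (C * (s99 a * (p : ℝ) ^ (1 / 4 : ℝ)))) + sqrt X * (C2 * 4 ^ a * (p * w)) + sqrt X * (C2 / ((m : ℝ) + 1)) := by ring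
  rw [e6]
  linarith only [hsumB, t3, t5, t6, t7, t8, t9, t10]

end Pool.Agent.Helper99.EY
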